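import Pool.Agent.H10.GM.Targets2

/-!
# The excluded grid theorem: the final step
-/

set_option autoImplicit false

namespace Pool.Agent.H13.GM

open Pool.Agent.H55.GW Pool.Agent.H10.GM Pool.Agent.H8.VR Pool.Agent.H8.MC

theorem pf_GRF : T_GRF := by
  intro hMGR hMSH hTOP hGMI r
  obtain ⟨k, h, hh, hM⟩ := hMGR r
  refine ⟨2 ^ (h + k), ?_⟩
  intro V _ _ G hG
  have hE : Sy G.Adj := fun u v huv => huv.symm
  have hno : ∀ C U T, ¬ Mesh G.Adj k h C U T := fun C U T hm =>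
    hG (hGMI V G r (hM V G.Adj hE C U T hm))
  refine hTOP V G.Adj hE (h + k) (by omega) ?_
  rintro C ⟨hP, hC⟩
  exact hMSH V G.Adj hE k h hno C ⟨hP, le_trans hC hh⟩

end Pool.Agent.H13.GM
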